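import Mathlib
import Pool.Agent.Helper311.PlessnerDefs
import Pool.Agent.Helper311.PlessnerProof

open Set Filter Topology Metric MeasureTheory

namespace Pool.Agent.Results.MP_31144c_an.PlessnerNull

open Pool.Agent.Helper311.Plessner

/-- **Main theorem (disproof of Q1).** There are a function `f` analytic in the unit disc and a
measurable set `E` of angles of positive measure such that for every `θ ∈ E`, with `P = e^{iθ}`:
`P` is not of type (a) for `f` (indeed `f` has no finite limit at `P` within any Stolz angle), and
for *every* Stolz angle `S` at `P` the set `V(f,P,S)` of the values taken infinitely often as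
`z → P` within `S` has planar measure zero; in particular its complement has positive measure. -/
theorem result : ∃ f : ℂ → ℂ, DifferentiableOn ℂ f (ball 0 1) ∧
    ∃ E : Set ℝ, E ⊆ Ioc 0 (2 * Real.pi) ∧ MeasurableSet E ∧ 0 < volume E ∧
      ∀ θ ∈ E, ¬ TypeA f (Complex.exp (θ * Complex.I)) ∧
        ∀ C > 1, ∀ δ > 0,
          ¬ HasFiniteLimitIn f (Complex.exp (θ * Complex.I))
              (stolzAngle (Complex.exp (θ * Complex.I)) C δ) ∧
          volume (valuesIO f (Complex.exp (θ * Complex.I))
            (stolzAngle (Complex.exp (θ * Complex.I)) C δ)) = 0 ∧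
          0 < volume (valuesIO f (Complex.exp (θ * Complex.I))
            (stolzAngle (Complex.exp (θ * Complex.I)) C δ))ᶜ := by
  obtain ⟨f, hf, E, hE1, hE2, hE3, hE4⟩ := plessner_main
  refine ⟨f, hf, E, hE1, hE2, hE3, fun θ hθ => ⟨fun hA => ?_, fun C hC δ hδ => ?_⟩⟩
  · exact (hE4 θ hθ 2 (by norm_num) 1 one_pos).1 (hA 2 (by norm_num) 1 one_pos)
  · obtain ⟨h1, h2⟩ := hE4 θ hθ C hC δ hδ
    refine ⟨h1, h2, ?_⟩
    rw [pos_iff_ne_zero]
    intro h3
    have h4 : volume (univ : Set ℂ) = 0 := by
      rw [← union_compl_self (valuesIO f (Complex.exp (θ * Complex.I))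
        (stolzAngle (Complex.exp (θ * Complex.I)) C δ))]
      exact measure_union_null h2 h3
    exact isOpen_univ.measure_ne_zero volume univ_nonempty h4

end Pool.Agent.Results.MP_31144c_an.PlessnerNull
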